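import Mathlib
import Pool.Agent.H667R3.W8
import Pool.Agent.TH813.EllD
import Pool.Agent.TH813.EKBase

/-!
# Serre's function: interface

`sF L q z` is Serre's function `f_q(z) = σ(z+q)/(σ(z)σ(q)) exp(-ζ(q) z)` (and `1` if `q` is in the lattice),
`sT L q z` its logarithmic derivative with respect to `z`.
-/

set_option autoImplicit false

open Filter
open scoped Topology PeriodPair

noncomputable section

namespace Pool.Agent.K1H83.NS

open H667R3 Pool.Agent.W245.EB Pool.Agent.TH813.Ell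

open Classical in
/-- Serre's function -/
def sF (L : PeriodPair) (q z : ℂ) : ℂ := if q ∈ L.lattice then 1 else serreF L q z

open Classical in
/-- its logarithmic derivative -/
def sT (L : PeriodPair) (q z : ℂ) : ℂ :=
  if q ∈ L.lattice then 0 else zeta L (z + q) - zeta L z - zeta L q

/-- a countable set of exceptions -/
def sB (L : PeriodPair) (q : ℂ) : Set ℂ :=
  {z | z ∈ L.lattice ∨ z + q ∈ L.lattice ∨ z + 2 * q ∈ L.lattice}

/-- the form of the third kind -/
def sL (L : PeriodPair) (q : ℂ) (D : Derivation ℚ ℂ ℂ) (z : ℂ) : ℂ :=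
  D (sF L q z) / sF L q z - sT L q z * om L D z

/-- **Piece NX** (complex analysis). `U s` are elliptic functions (meromorphic on `ℂ`, periodic outside a
discrete set), not zero. -/
def S_NX : Prop :=
  ∀ (L : PeriodPair) {r : ℕ} (U : Fin r → ℂ → ℂ) (q γ : Fin r → ℂ) (a b : ℂ) (d : ℕ), d ≠ 0 →
    (∀ s, Ellip L (U s)) → (∀ s, ¬ U s =ᶠ[codiscrete ℂ] fun _ => 0) →
    ((fun z => ∑ s, γ s * (deriv (U s) z / U s z - d * sT L (q s) z) + a + b * ℘[L] z)
      =ᶠ[codiscrete ℂ] fun _ => 0) →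
    ∀ ψ : ℂ →ₗ[ℚ] ℚ, ∃ n : ℕ, 0 < n ∧ (n : ℂ) * ∑ s, ((ψ (γ s) : ℚ) : ℂ) * q s ∈ L.lattice

/-- **Piece ADD** (groups). A function which is additive outside a countable set agrees there with
an additive function. -/
def S_ADD : Prop :=
  ∀ (S : Set ℂ), S.Countable → ∀ T : ℂ → ℂ,
    (∀ z w, z ∉ S → w ∉ S → z + w ∉ S → z - w ∉ S → T (z + w) = T z + T w) →
    ∃ T' : ℂ → ℂ, (∀ z w, T' (z + w) = T' z + T' w) ∧ ∀ z, z ∉ S → T' z = T z

/-- **Piece DLOG** (elliptic functions). The form of the third kind is additive. -/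
def S_DLOG : Prop :=
  ∀ (L : PeriodPair) (D : Derivation ℚ ℂ ℂ), D L.g₂ = 0 → D L.g₃ = 0 → ∀ q : ℂ,
    (q ∈ L.lattice ∨ (D (℘[L] q) = 0 ∧ D (℘'[L] q) = 0)) →
    ∀ z w, z ∉ sB L q → w ∉ sB L q → z + w ∉ sB L q → z - w ∉ sB L q →
      sL L q D (z + w) = sL L q D z + sL L q D w

end Pool.Agent.K1H83.NS
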