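import Mathlib
import Pool.Agent.K1H83.NS.Stm
import Pool.Agent.K1H83.BD.Conc

/-!
# Forms of the third kind at a generic point
-/

set_option autoImplicit false

open Filter Finset
open scoped Topology PeriodPair

noncomputable section

namespace Pool.Agent.K1H83.NS

open H667R3 Pool.Agent.W245.EB Pool.Agent.TH813.Ell Pool.Agent.TH813.G
open Pool.Agent.TH813.Core Pool.Agent.TH813.Core2
open Pool.Agent.K1H83.BD

section gen

variable {L : PeriodPair} {K₁ : Type*} [Field K₁] [Algebra K₁ ℂ] [CharZero K₁]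

/-- outside a discrete set -/
theorem codisc_notMem (q : ℂ) : ∀ᶠ z in codiscrete ℂ, z + q ∉ L.lattice := by
  refine mem_codiscrete.2 fun x => ?_
  rw [disjoint_principal_right, compl_compl]
  have h := Pool.Agent.TH312.J1796.lat_nhdsNE (L := L) (x + q)
  have h2 : Tendsto (fun z => z + q) (𝓝[≠] x) (𝓝[≠] (x + q)) := by
    refine tendsto_nhdsWithin_iff.2 ⟨?_, ?_⟩
    · exact ((continuous_id.add continuous_const).tendsto x).mono_left nhdsWithin_le_nhds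
    · filter_upwards [self_mem_nhdsWithin] with z hz
      intro h
      exact hz (add_right_cancel h)
  exact h2.eventually h

theorem codisc_notMem' (q : ℂ) : ∀ᶠ z in codiscrete ℂ, z - q ∉ L.lattice := by
  simpa [sub_eq_add_neg] using codisc_notMem (L := L) (-q)

theorem codisc_notMem0 : ∀ᶠ z in codiscrete ℂ, z ∉ L.lattice := by
  simpa using codisc_notMem (L := L) 0

theorem sT_eq {q z : ℂ} (hq : q ∉ L.lattice) (hz : z ∉ L.lattice) (h1 : z + q ∉ L.lattice)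
    (h2 : z - q ∉ L.lattice) :
    sT L q z * (2 * (℘[L] z - ℘[L] q)) = ℘'[L] z - ℘'[L] q := by
  have h3 : ℘[L] z - ℘[L] q ≠ 0 := by
    rw [sub_ne_zero, Ne, wp_eq_iff L hz hq]
    tauto
  unfold sT
  rw [if_neg hq, zeta_add L hz hq h1 h2]
  have h4 : 2 * (℘[L] z - ℘[L] q) ≠ 0 := mul_ne_zero two_ne_zero h3
  have h5 : zeta L z + zeta L q + (℘'[L] z - ℘'[L] q) / (2 * (℘[L] z - ℘[L] q)) - zeta L z -
      zeta L q = (℘'[L] z - ℘'[L] q) / (2 * (℘[L] z - ℘[L] q)) := by ring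
  rw [h5, div_mul_cancel₀ _ h4]

/-- the relation at a generic point -/
theorem gen_rel (hNX : S_NX) {w : ℂ} (hw : 2 * w ∉ L.lattice) (hy : Transcendental K₁ (℘[L] w))
    (halg : Algebra.IsAlgebraic (IntermediateField.adjoin K₁ {℘[L] w}) ℂ)
    (h2 : L.g₂ ∈ (algebraMap K₁ ℂ).range) (h3 : L.g₃ ∈ (algebraMap K₁ ℂ).range)
    (D : Derivation K₁ ℂ ℂ) (hD : D (℘[L] w) = ℘'[L] w) (Dq : Derivation ℚ ℂ ℂ)
    (hDq : ∀ z, Dq z = D z) {r : ℕ} (δ : Fin r → K₁) (u q : Fin r → ℂ) (hu : ∀ s, u s ≠ 0)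
    (hq : ∀ s, q s ∈ L.lattice ∨ (w + q s ∉ L.lattice ∧ w - q s ∉ L.lattice ∧
      ℘[L] (q s) ∈ (algebraMap K₁ ℂ).range ∧ ℘'[L] (q s) ∈ (algebraMap K₁ ℂ).range))
    (α γ : K₁)
    (hrel : ∑ s, algebraMap K₁ ℂ (δ s) * (Dq (u s) / u s - sT L (q s) w) +
      (algebraMap K₁ ℂ α + algebraMap K₁ ℂ γ * ℘[L] w) = 0) (ψ : ℂ →ₗ[ℚ] ℚ) :
    ∃ n : ℕ, 0 < n ∧
      (n : ℂ) * ∑ s, ((ψ (algebraMap K₁ ℂ (δ s)) : ℚ) : ℂ) * q s ∈ L.lattice := by
  classical
  set E := IntermediateField.adjoin K₁ ({℘[L] w, ℘'[L] w} : Set ℂ) with hEdef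
  have hyE : ℘[L] w ∈ E := IntermediateField.subset_adjoin _ _ (Or.inl rfl)
  have hyE' : ℘'[L] w ∈ E := IntermediateField.subset_adjoin _ _ (Or.inr rfl)
  have hle : IntermediateField.adjoin K₁ {℘[L] w} ≤ E := by
    rw [IntermediateField.adjoin_le_iff]
    rintro _ rfl
    exact hyE
  have hEalg : Algebra.IsAlgebraic E ℂ := by
    refine ⟨fun z => ?_⟩
    obtain ⟨p, hp, hpz⟩ := halg.isAlgebraic z
    refine ⟨p.map (IntermediateField.inclusion hle).toRingHom,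
      (Polynomial.map_ne_zero_iff (IntermediateField.inclusion hle).toRingHom.injective).2 hp, ?_⟩
    rw [Polynomial.aeval_def, Polynomial.eval₂_map]
    exact hpz
  have hEch : CharZero E := charZero_of_injective_algebraMap (algebraMap K₁ E).injective
  have hrange : ∀ z, z ∈ (algebraMap E ℂ).range ↔ z ∈ E := by
    intro z
    constructor
    · rintro ⟨e, rfl⟩
      exact e.2
    · intro hz
      exact ⟨⟨z, hz⟩, rfl⟩
  have hKE : ∀ k : K₁, algebraMap K₁ ℂ k ∈ E := fun k => E.algebraMap_mem k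
  have hKE' : ∀ z, z ∈ (algebraMap K₁ ℂ).range → z ∈ E := by
    rintro _ ⟨k, rfl⟩
    exact hKE k
  have h2E : L.g₂ ∈ (algebraMap E ℂ).range := (hrange _).2 (hKE' _ h2)
  have h3E : L.g₃ ∈ (algebraMap E ℂ).range := (hrange _).2 (hKE' _ h3)
  have hcomm : ∀ (τ : ℂ ≃ₐ[E] ℂ) (z : ℂ), D (τ z) = τ (D z) := fun τ z =>
    comm_conj halg D hyE (by rw [hD]; exact hyE') τ z
  have hcommq : ∀ (τ : ℂ ≃ₐ[E] ℂ) (z : ℂ), Dq (τ z) = τ (Dq z) := fun τ z => by
    rw [hDq, hDq, hcomm]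
  have hfix : ∀ (τ : ℂ ≃ₐ[E] ℂ), ∀ e ∈ E, τ e = e := fun τ e he => τ.commutes ⟨e, he⟩
  have hwl : w ∉ L.lattice := fun h => hw (by rw [two_mul]; exact add_mem h h)
  have hDE : ∀ e ∈ E, D e ∈ E := fun e he => der_mem hw h2 h3 D hD he
  -- the values of the logarithmic derivatives of Serre's function
  have hsT : ∀ s, sT L (q s) w ∈ E := by
    intro s
    rcases hq s with h | ⟨b1, b2, b3, b4⟩
    · unfold sT
      rw [if_pos h]
      exact zero_mem _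
    · by_cases hql : q s ∈ L.lattice
      · unfold sT
        rw [if_pos hql]
        exact zero_mem _
      have h4 := sT_eq hql hwl b1 b2
      have h5 : ℘[L] w - ℘[L] (q s) ≠ 0 := by
        rw [sub_ne_zero, Ne, wp_eq_iff L hwl hql]
        tauto
      have h6 : sT L (q s) w = (℘'[L] w - ℘'[L] (q s)) / (2 * (℘[L] w - ℘[L] (q s))) := by
        rw [← h4, mul_div_cancel_right₀ _ (mul_ne_zero two_ne_zero h5)]
      rw [h6]
      exact div_mem (sub_mem hyE' (hKE' _ b4))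
        (mul_mem (ofNat_mem E 2) (sub_mem hyE (hKE' _ b3)))
  obtain ⟨ι, _, _, τ, v', -, hN, -, -⟩ := conj_family (L := L) (E := E) h2E h3E
    (fun _ : Fin 0 => (0 : ℂ)) u (fun _ : Fin 0 => (0 : ℂ))
  set N' : Fin r → ℂ := fun l => ∏ i, τ i (u l) with hN'
  have hN'0 : ∀ l, N' l ≠ 0 := fun l => prod_ne_zero_iff.2 (fun i _ => (map_ne_zero (τ i)).2 (hu l))
  have hNE : ∀ l, N' l ∈ E := fun l => (hrange _).1 (hN l)
  have hlog : ∀ l, ∑ i, τ i (Dq (u l) / u l) = Dq (N' l) / N' l := by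
    intro l
    have h2 := Pool.Agent.H327R2.SC.logder Dq univ (fun i => τ i (u l))
      (fun i _ => (map_ne_zero (τ i)).2 (hu l)) (fun _ => 1)
    simp only [zpow_one, Int.cast_one, one_mul] at h2
    rw [hN']
    simp only
    rw [h2, mul_div_cancel_left₀ _ (prod_ne_zero_iff.2
      (fun i _ => (map_ne_zero (τ i)).2 (hu l)))]
    refine sum_congr rfl (fun i _ => ?_)
    rw [hcommq, map_div₀]
  set d : ℕ := Fintype.card ι with hd
  have hd0 : d ≠ 0 := Fintype.card_ne_zero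
  -- the traced relation
  have htr : ∑ s, algebraMap K₁ ℂ (δ s) * (Dq (N' s) / N' s - d * sT L (q s) w) +
      (d * algebraMap K₁ ℂ α + d * algebraMap K₁ ℂ γ * ℘[L] w) = 0 := by
    have h4 : ∀ i, ∑ s, algebraMap K₁ ℂ (δ s) * (τ i (Dq (u s) / u s) - sT L (q s) w) +
        (algebraMap K₁ ℂ α + algebraMap K₁ ℂ γ * ℘[L] w) = 0 := by
      intro i
      have h5 := congrArg (τ i) hrel
      rw [map_add, map_sum, map_zero, map_add, map_mul (τ i) (algebraMap K₁ ℂ γ),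
        hfix (τ i) _ (hKE α), hfix (τ i) _ (hKE γ), hfix (τ i) _ hyE] at h5
      rw [← h5]
      congr 1
      refine sum_congr rfl fun s _ => ?_
      rw [map_mul, map_sub, hfix (τ i) _ (hKE _), hfix (τ i) _ (hsT s)]
    have h5 : ∑ i, (∑ s, algebraMap K₁ ℂ (δ s) * (τ i (Dq (u s) / u s) - sT L (q s) w) +
        (algebraMap K₁ ℂ α + algebraMap K₁ ℂ γ * ℘[L] w)) = 0 := sum_eq_zero fun i _ => h4 i
    rw [sum_add_distrib, sum_comm, sum_const, card_univ, nsmul_eq_mul, ← hd] at h5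
    have h6 : ∀ s, ∑ i, algebraMap K₁ ℂ (δ s) * (τ i (Dq (u s) / u s) - sT L (q s) w) =
        algebraMap K₁ ℂ (δ s) * (Dq (N' s) / N' s - d * sT L (q s) w) := by
      intro s
      rw [← mul_sum, sum_sub_distrib, hlog, sum_const, card_univ, nsmul_eq_mul]
    rw [sum_congr rfl (fun s _ => h6 s)] at h5
    rw [← h5]
    ring
  -- transfer
  obtain ⟨Θ, hk, hΘ1, hΘ2, hrep⟩ := transfer hw hy h2 h3 D hD
  have hnt : Nontrivial (Germ (codiscrete ℂ) ℂ) := by infer_instance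
  choose fN hfN hΘN hderN using fun l => hrep ⟨N' l, hNE l⟩
  have hdiv : ∀ l, (⟨D (N' l), hDE _ (hNE l)⟩ / ⟨N' l, hNE l⟩ : E) * ⟨N' l, hNE l⟩ =
      ⟨D (N' l), hDE _ (hNE l)⟩ := fun l =>
    div_mul_cancel₀ _ (fun h => hN'0 l (congrArg Subtype.val h))
  have hne : ∀ l, ∀ᶠ z in codiscrete ℂ, fN l z ≠ 0 := by
    intro l
    obtain ⟨q, -, hΘq, -⟩ := hrep (⟨N' l, hNE l⟩⁻¹ : E)
    have h1 : (⟨N' l, hNE l⟩ : E) * (⟨N' l, hNE l⟩⁻¹ : E) = 1 :=
      mul_inv_cancel₀ (fun h => hN'0 l (congrArg Subtype.val h))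
    have h4 := congrArg Θ h1
    rw [map_mul, hΘN, hΘq, map_one] at h4
    have h5 : (fun z => fN l z * q z) =ᶠ[codiscrete ℂ] fun _ => 1 := Germ.coe_eq.1 h4
    filter_upwards [h5] with z hz h0
    rw [h0, zero_mul] at hz
    exact zero_ne_one hz
  have e3 : ∀ l, Θ (⟨D (N' l), hDE _ (hNE l)⟩ / ⟨N' l, hNE l⟩ : E) =
      ((fun z => deriv (fN l) z / fN l z : ℂ → ℂ) : Germ (codiscrete ℂ) ℂ) := by
    intro l
    obtain ⟨q, -, hΘq, -⟩ := hrep (⟨D (N' l), hDE _ (hNE l)⟩ / ⟨N' l, hNE l⟩ : E)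
    have h4 := congrArg Θ (hdiv l)
    rw [map_mul, hΘN, hΘq, hderN l _ rfl] at h4
    have h5 : (fun z => q z * fN l z) =ᶠ[codiscrete ℂ] deriv (fN l) := Germ.coe_eq.1 h4
    rw [hΘq]
    apply Germ.coe_eq.2
    filter_upwards [h5, hne l] with z hz h0
    rw [← hz, mul_div_cancel_right₀ _ h0]
  -- the transfer of the logarithmic derivative of Serre's function
  have hsΘ : ∀ s, Θ ⟨sT L (q s) w, hsT s⟩ =
      ((fun z => sT L (q s) z : ℂ → ℂ) : Germ (codiscrete ℂ) ℂ) := by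
    intro s
    by_cases hql : q s ∈ L.lattice
    · have h4 : (⟨sT L (q s) w, hsT s⟩ : E) = 0 := by
        apply Subtype.ext
        change sT L (q s) w = 0
        unfold sT
        rw [if_pos hql]
      rw [h4, map_zero]
      apply Germ.coe_eq.2
      refine Eventually.of_forall fun z => ?_
      change (0 : ℂ) = sT L (q s) z
      unfold sT
      rw [if_pos hql]
    · obtain ⟨b1, b2, ⟨c1, b3⟩, ⟨c2, b4⟩⟩ := (hq s).resolve_left hql
      obtain ⟨f, -, hΘf, -⟩ := hrep ⟨sT L (q s) w, hsT s⟩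
      have h4 : (⟨sT L (q s) w, hsT s⟩ : E) * (2 * (⟨℘[L] w, hyE⟩ - algebraMap K₁ E c1)) =
          ⟨℘'[L] w, hyE'⟩ - algebraMap K₁ E c2 := by
        apply Subtype.ext
        change sT L (q s) w * (2 * (℘[L] w - algebraMap K₁ ℂ c1)) = ℘'[L] w - algebraMap K₁ ℂ c2
        rw [b3, b4]
        exact sT_eq hql hwl b1 b2
      have h5 := congrArg Θ h4
      rw [map_mul, map_mul, map_sub, map_sub, hk, hk, hΘ1 ⟨_, hyE⟩ rfl, hΘ2 ⟨_, hyE'⟩ rfl, map_ofNat,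
        hΘf, b3, b4] at h5
      have h6 : (fun z => f z * (2 * (℘[L] z - ℘[L] (q s)))) =ᶠ[codiscrete ℂ]
          fun z => ℘'[L] z - ℘'[L] (q s) := Germ.coe_eq.1 h5
      rw [hΘf]
      apply Germ.coe_eq.2
      filter_upwards [h6, codisc_notMem (L := L) (q s), codisc_notMem' (L := L) (q s),
        codisc_notMem0 (L := L)] with z hz k1 k2 k3
      have h7 : ℘[L] z - ℘[L] (q s) ≠ 0 := by
        rw [sub_ne_zero, Ne, wp_eq_iff L k3 hql]
        tauto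
      have h8 := sT_eq hql k3 k1 k2
      rw [← hz] at h8
      exact (mul_right_cancel₀ (mul_ne_zero two_ne_zero h7) h8).symm
  have e1 : (∑ s, algebraMap K₁ E (δ s) * (⟨D (N' s), hDE _ (hNE s)⟩ / ⟨N' s, hNE s⟩ -
      (d : E) * ⟨sT L (q s) w, hsT s⟩)) +
      (((d : E) * algebraMap K₁ E α) + ((d : E) * algebraMap K₁ E γ) * ⟨℘[L] w, hyE⟩) = 0 := by
    apply Subtype.ext
    change E.val ((∑ s, algebraMap K₁ E (δ s) * (⟨D (N' s), hDE _ (hNE s)⟩ / ⟨N' s, hNE s⟩ -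
      (d : E) * ⟨sT L (q s) w, hsT s⟩)) +
      (((d : E) * algebraMap K₁ E α) + ((d : E) * algebraMap K₁ E γ) * ⟨℘[L] w, hyE⟩)) = 0
    rw [← htr, map_add, map_sum, map_add]
    congr 1
    · refine sum_congr rfl fun s _ => ?_
      rw [hDq]
      rfl
  have e2 := congrArg Θ e1
  rw [map_zero, map_add Θ, map_sum Θ, map_add Θ, map_mul Θ _ ⟨℘[L] w, hyE⟩] at e2
  have e4 : Germ.coeRingHom (codiscrete ℂ)
      (∑ s, (fun z => algebraMap K₁ ℂ (δ s) * (deriv (fN s) z / fN s z - d * sT L (q s) z)) +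
        ((fun _ => (d : ℂ) * algebraMap K₁ ℂ α) +
          fun z => (d : ℂ) * algebraMap K₁ ℂ γ * ℘[L] z)) =
      ((fun _ => (0 : ℂ) : ℂ → ℂ) : Germ (codiscrete ℂ) ℂ) := by
    rw [map_add, map_sum, map_add]
    refine Eq.trans ?_ e2
    have hdΘ : Θ (d : E) = ((fun _ => (d : ℂ) : ℂ → ℂ) : Germ (codiscrete ℂ) ℂ) := by
      rw [map_natCast]
      rfl
    congr 1
    · refine sum_congr rfl (fun l _ => ?_)
      rw [map_mul, map_sub, map_mul, e3, hk, hsΘ, hdΘ]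
      rfl
    · congr 1
      · rw [map_mul, hk, hdΘ]
        rfl
      · rw [map_mul, hk, hdΘ, hΘ1 ⟨_, hyE⟩ rfl]
        rfl
  have e5 : (fun z => ∑ s, algebraMap K₁ ℂ (δ s) * (deriv (fN s) z / fN s z - d * sT L (q s) z) +
      (d : ℂ) * algebraMap K₁ ℂ α + (d : ℂ) * algebraMap K₁ ℂ γ * ℘[L] z)
        =ᶠ[codiscrete ℂ] fun _ => 0 := by
    have h6 := Germ.coe_eq.1 e4
    filter_upwards [h6] with z hz
    rw [← hz]
    simp only [Pi.add_apply, Finset.sum_apply]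
    ring
  exact hNX L fN q (fun s => algebraMap K₁ ℂ (δ s)) _ _ d hd0 hfN (fun l h => by
    obtain ⟨z, hz1, hz2⟩ := ((hne l).and h).exists
    exact hz1 hz2) e5 ψ

end gen

/-- the form of the third kind of a point whose coordinates are not in the field -/
theorem rel_third (hNX : S_NX) {L : PeriodPair} {K : IntermediateField ℚ ℂ} (hK : Clo K)
    (h2 : L.g₂ ∈ K) (h3 : L.g₃ ∈ K) {w : ℂ} (hwl : w ∉ L.lattice) (hw : ℘[L] w ∉ K) {r : ℕ}
    (δ u q : Fin r → ℂ) (hδ : ∀ s, δ s ∈ K) (hu : ∀ s, u s ≠ 0)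
    (hq : ∀ s, q s ∈ L.lattice ∨ ℘[L] (q s) ∈ K) (α γ : ℂ) (hα : α ∈ K) (hγ : γ ∈ K)
    (h : ∀ D : Derivation ℚ ℂ ℂ, (∀ x ∈ K, D x = 0) →
      ∑ s, δ s * (D (u s) / u s - sT L (q s) w * om L D w) + (α + γ * ℘[L] w) * om L D w = 0)
    (ψ : ℂ →ₗ[ℚ] ℚ) :
    ∃ n : ℕ, 0 < n ∧ (n : ℂ) * ∑ s, ((ψ (δ s) : ℚ) : ℂ) * q s ∈ L.lattice := by
  classical
  have hy' : ∀ z, z ∉ L.lattice → ℘[L] z ∈ K → ℘'[L] z ∈ K := by
    intro z hz hzK
    refine mem_of_killed hK fun D hD => ?_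
    refine (wp_killed (hD _ h2) (hD _ h3) ?_ hz).2
    unfold om
    rw [hD _ hzK, zero_div]
  obtain ⟨D₀, hD₀, hDy⟩ : ∃ D : Derivation ℚ ℂ ℂ, (∀ x ∈ K, D x = 0) ∧ D (℘[L] w) ≠ 0 := by
    by_contra hcon
    push Not at hcon
    exact hw (mem_of_killed hK hcon)
  have hw2 : 2 * w ∉ L.lattice := by
    intro hl
    have h4 : om L D₀ w = 0 := om_of_two_mul_mem L D₀ hl
    exact hDy (wp_killed (hD₀ _ h2) (hD₀ _ h3) h4 hwl).1
  have hw' : ℘'[L] w ≠ 0 := wp'_ne_zero L hw2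
  obtain ⟨K₁, D₁, h1, h4, h5⟩ :=
    Pool.Agent.TH813.Ros.exists_setup K (Pool.Agent.TH813.Ros.trans_of_der K D₀ hD₀ hDy)
  have : CharZero K := charZero_of_injective_algebraMap (algebraMap ℚ K).injective
  have : CharZero K₁ := charZero_of_injective_algebraMap (algebraMap K K₁).injective
  let D : Derivation K₁ ℂ ℂ := ℘'[L] w • D₁
  have hD : D (℘[L] w) = ℘'[L] w := by
    change ℘'[L] w • D₁ (℘[L] w) = _
    rw [h5, smul_eq_mul, mul_one]
  let Dq : Derivation ℚ ℂ ℂ := (D.restrictScalars K).restrictScalars ℚ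
  have hkill : ∀ w ∈ K, Dq w = 0 := fun w hw =>
    (D.restrictScalars K).map_algebraMap (⟨w, hw⟩ : K)
  have homw : om L Dq w = 1 := by
    change D (℘[L] w) / ℘'[L] w = 1
    rw [hD, div_self hw']
  have hrel := h Dq hkill
  rw [homw, mul_one] at hrel
  refine gen_rel (K₁ := K₁) hNX hw2 h1 h4 ⟨algebraMap K K₁ ⟨_, h2⟩, rfl⟩
    ⟨algebraMap K K₁ ⟨_, h3⟩, rfl⟩ D hD Dq (fun z => rfl)
    (fun s => algebraMap K K₁ ⟨δ s, hδ s⟩) u q hu (fun s => ?_) (algebraMap K K₁ ⟨α, hα⟩)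
    (algebraMap K K₁ ⟨γ, hγ⟩) ?_ ψ
  · rcases hq s with hql | hqK
    · exact Or.inl hql
    · by_cases hql : q s ∈ L.lattice
      · exact Or.inl hql
      right
      have h6 : ∀ x : ℂ, ℘[L] x = ℘[L] w → x ∉ L.lattice → x ≠ 0 := fun x _ hx h0 => by
        rw [h0] at hx
        exact hx (zero_mem _)
      have h7 : w + q s ∉ L.lattice ∧ w - q s ∉ L.lattice := by
        have h8 : ¬ ℘[L] w = ℘[L] (q s) := fun h9 => hw (by rw [h9]; exact hqK)
        rw [wp_eq_iff L hwl hql] at h8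
        tauto
      exact ⟨h7.1, h7.2, ⟨algebraMap K K₁ ⟨_, hqK⟩, rfl⟩, ⟨algebraMap K K₁ ⟨_, hy' _ hql hqK⟩, rfl⟩⟩
  · refine Eq.trans ?_ hrel
    congr 1
    refine sum_congr rfl fun s _ => ?_
    rw [mul_one]
    rfl

end Pool.Agent.K1H83.NS
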