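import Mathlib
import Pool.Agent.K1H83.NS.Third
import Pool.Agent.K1H83.BD.Step1c

/-!
# Relations between points of extensions of elliptic curves by tori
-/

set_option autoImplicit false

open Filter Finset Module
open scoped PeriodPair ComplexConjugate

noncomputable section

namespace Pool.Agent.K1H83.NS

open H667R3 Pool.Agent.W245.EB
open Pool.Agent.W252
open Pool.Agent.TH813.Core Pool.Agent.TH813.Ell Pool.Agent.TH813.Core2 Pool.Agent.TH813.G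
open Pool.Agent.K1H83.BD

variable {K N : IntermediateField ℚ ℂ}

/-- the form of the third kind of a point of an extension -/
def tf {n l q : ℕ} (Λ : Fin q → PeriodPair) (ty : Fin n → Fin q) (v : Fin n → ℂ)
    (Q : Fin l → Fin n → ℂ) (U : Fin l → ℂ) (s : Fin l) (D : Derivation ℚ ℂ ℂ) : ℂ :=
  D (U s) / U s - ∑ j, sT (Λ (ty j)) (Q s j) (v j) * om (Λ (ty j)) D (v j)

/-- no character of the torus has a split extension -/
def Anti {n l q : ℕ} (Λ : Fin q → PeriodPair) (ty : Fin n → Fin q) (Q : Fin l → Fin n → ℂ) : Prop :=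
  ∀ m : Fin l → ℚ, m ≠ 0 → ∃ j, ∀ N : ℕ, 0 < N →
    (N : ℂ) * ∑ s, (m s : ℂ) * Q s j ∉ (Λ (ty j)).lattice

/-- derivations with given values of the forms -/
theorem exists_vals {M : IntermediateField ℚ ℂ} {q : ℕ} {Λ : Fin q → PeriodPair} {m n : ℕ}
    (ty : Fin n → Fin q) (w : Fin m → ℂ) (v z : Fin n → ℂ) (hv : ∀ j, ℘'[Λ (ty j)] (v j) ≠ 0)
    (hind : AlgebraicIndependent M (xs Λ ty w v z)) (y : Fin m ⊕ (Fin n ⊕ Fin n) → ℂ) :
    ∃ D : Derivation ℚ ℂ ℂ, (∀ x ∈ M, D x = 0) ∧ ∀ κ, fs Λ ty w v z κ D = y κ := by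
  obtain ⟨D, hD⟩ := Pool.Agent.H135R2.VS.exists_der hind
    (Sum.elim (fun i => y (Sum.inl i) * Complex.exp (w i))
      (Sum.elim (fun j => y (Sum.inr (Sum.inl j)) * ℘'[Λ (ty j)] (v j))
        (fun j => y (Sum.inr (Sum.inr j)) - ℘[Λ (ty j)] (v j) * y (Sum.inr (Sum.inl j)))))
  refine ⟨D.restrictScalars ℚ, fun x hx => D.map_algebraMap (⟨x, hx⟩ : M), ?_⟩
  have h1 : ∀ j, om (Λ (ty j)) (D.restrictScalars ℚ) (v j) = y (Sum.inr (Sum.inl j)) := by
    intro j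
    have h2 : D (℘[Λ (ty j)] (v j)) = y (Sum.inr (Sum.inl j)) * ℘'[Λ (ty j)] (v j) :=
      hD (Sum.inr (Sum.inl j))
    change D (℘[Λ (ty j)] (v j)) / ℘'[Λ (ty j)] (v j) = _
    rw [h2, mul_div_cancel_right₀ _ (hv j)]
  rintro (i | j | j)
  · have h2 : D (Complex.exp (w i)) = y (Sum.inl i) * Complex.exp (w i) := hD (Sum.inl i)
    change D (Complex.exp (w i)) / Complex.exp (w i) = _
    rw [h2, mul_div_cancel_right₀ _ (Complex.exp_ne_zero _)]
  · exact h1 j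
  · have h2 : D (z j) = y (Sum.inr (Sum.inr j)) - ℘[Λ (ty j)] (v j) * y (Sum.inr (Sum.inl j)) :=
      hD (Sum.inr (Sum.inr j))
    change D (z j) + ℘[Λ (ty j)] (v j) * om (Λ (ty j)) (D.restrictScalars ℚ) (v j) = _
    rw [h1, h2]
    ring

/-- one of the independent numbers is not algebraic over the others -/
theorem notMem_others {M : IntermediateField ℚ ℂ} {I : Type} {x : I → ℂ}
    (hx : AlgebraicIndependent M x) (i : I) :
    x i ∉ cl ((M : Set ℂ) ∪ {z | ∃ κ, κ ≠ i ∧ z = x κ}) := by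
  classical
  intro h
  obtain ⟨D, hD⟩ := Pool.Agent.H135R2.VS.exists_der hx (fun κ => if κ = i then (1 : ℂ) else 0)
  have h1 : (D.restrictScalars ℚ) (x i) = 0 := by
    refine kill_cl ?_ h
    rintro z (hz | ⟨κ, hκ, rfl⟩)
    · exact D.map_algebraMap (⟨z, hz⟩ : M)
    · change D (x κ) = 0
      rw [hD, if_neg hκ]
  have h2 : D (x i) = 1 := by rw [hD, if_pos rfl]
  have h3 : D (x i) = 0 := h1
  rw [h2] at h3
  exact one_ne_zero h3

theorem sT_add_der {L : PeriodPair} (a : ℂ) (D D' : Derivation ℚ ℂ ℂ) (v : ℂ) :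
    a * om L (D + D') v = a * om L D v + a * om L D' v := by
  rw [om_add_der, mul_add]

/-- the derivative of `℘'` -/
theorem wp'_der {L : PeriodPair} {D : Derivation ℚ ℂ ℂ} (h2 : D L.g₂ = 0) (h3 : D L.g₃ = 0) {z : ℂ}
    (hz : z ∉ L.lattice) : D (℘'[L] z) = (6 * ℘[L] z ^ 2 - L.g₂ / 2) * om L D z := by
  by_cases h2z : 2 * z ∈ L.lattice
  · rw [om_of_two_mul_mem L D h2z, mul_zero]
    exact ((om_eq_zero_iff L D h2 h3 hz).1 (om_of_two_mul_mem L D h2z)).2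
  · have h4 := wp'_ne_zero L h2z
    have h5 := D_curve D h2 h3 (L.derivWeierstrassP_sq z hz)
    have h6 : D (℘[L] z) = ℘'[L] z * om L D z := by
      unfold om
      rw [mul_div_cancel₀ _ h4]
    rw [h6] at h5
    have h7 : 2 * ℘'[L] z ≠ 0 := mul_ne_zero two_ne_zero h4
    refine mul_left_cancel₀ h7 ?_
    rw [h5]
    ring

theorem wp_der {L : PeriodPair} {D : Derivation ℚ ℂ ℂ} (h2 : D L.g₂ = 0) (h3 : D L.g₃ = 0) {z : ℂ}
    (hz : z ∉ L.lattice) : D (℘[L] z) = ℘'[L] z * om L D z := by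
  by_cases h2z : 2 * z ∈ L.lattice
  · rw [om_of_two_mul_mem L D h2z, mul_zero]
    exact ((om_eq_zero_iff L D h2 h3 hz).1 (om_of_two_mul_mem L D h2z)).1
  · unfold om
    rw [mul_div_cancel₀ _ (wp'_ne_zero L h2z)]

/-- the bracket of the form of the third kind -/
theorem tf_br {n l q : ℕ} {Λ : Fin q → PeriodPair} {ty : Fin n → Fin q} {v : Fin n → ℂ}
    {Q : Fin l → Fin n → ℂ} {U : Fin l → ℂ} (hU : ∀ s, U s ≠ 0) {D D' : Derivation ℚ ℂ ℂ}
    (h2 : ∀ c, D (Λ c).g₂ = 0) (h3 : ∀ c, D (Λ c).g₃ = 0)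
    (h2' : ∀ c, D' (Λ c).g₂ = 0) (h3' : ∀ c, D' (Λ c).g₃ = 0)
    (hv : ∀ j, v j ∉ (Λ (ty j)).lattice)
    (hQ : ∀ s j, Q s j ∈ (Λ (ty j)).lattice ∨ (v j + Q s j ∉ (Λ (ty j)).lattice ∧
      v j - Q s j ∉ (Λ (ty j)).lattice ∧ D (℘[Λ (ty j)] (Q s j)) = 0 ∧
      D (℘'[Λ (ty j)] (Q s j)) = 0 ∧ D' (℘[Λ (ty j)] (Q s j)) = 0 ∧
      D' (℘'[Λ (ty j)] (Q s j)) = 0)) (s : Fin l) :
    tf Λ ty v Q U s ⁅D, D'⁆ = D (tf Λ ty v Q U s D') - D' (tf Λ ty v Q U s D) := by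
  have hd : ∀ (E : Derivation ℚ ℂ ℂ) (x y : ℂ), y ≠ 0 → E (x / y) = (E x * y - x * E y) / y ^ 2 := by
    intro E x y hy
    rw [eq_div_iff (pow_ne_zero 2 hy)]
    have h4 : E (x / y * y) = E x := by rw [div_mul_cancel₀ _ hy]
    rw [Derivation.leibniz, smul_eq_mul, smul_eq_mul] at h4
    have h5 : x / y * E y * y = x * E y := by field_simp
    linear_combination y * h4 - h5
  -- the logarithmic derivative of Serre's function
  have hs : ∀ j, D (sT (Λ (ty j)) (Q s j) (v j)) * om (Λ (ty j)) D' (v j) =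
      D' (sT (Λ (ty j)) (Q s j) (v j)) * om (Λ (ty j)) D (v j) := by
    intro j
    by_cases hql : Q s j ∈ (Λ (ty j)).lattice
    · unfold sT
      rw [if_pos hql, map_zero, map_zero, zero_mul, zero_mul]
    obtain ⟨b1, b2, b3, b4, b5, b6⟩ := (hQ s j).resolve_left hql
    set L := Λ (ty j) with hL
    set x := ℘[L] (v j) with hx
    set y := ℘'[L] (v j) with hy
    have h4 := sT_eq hql (hv j) b1 b2
    have h5 : x - ℘[L] (Q s j) ≠ 0 := by
      rw [hx, sub_ne_zero, Ne, wp_eq_iff L (hv j) hql]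
      tauto
    have h6 : sT L (Q s j) (v j) = (y - ℘'[L] (Q s j)) / (2 * (x - ℘[L] (Q s j))) := by
      rw [← h4, mul_div_cancel_right₀ _ (mul_ne_zero two_ne_zero h5)]
    have h7 : (2 : ℂ) * (x - ℘[L] (Q s j)) ≠ 0 := mul_ne_zero two_ne_zero h5
    have hx1 : ∀ E : Derivation ℚ ℂ ℂ, E L.g₂ = 0 → E L.g₃ = 0 → E x = y * om L E (v j) ∧
        E y = (6 * x ^ 2 - L.g₂ / 2) * om L E (v j) := by
      intro E e2 e3
      exact ⟨wp_der e2 e3 (hv j), wp'_der e2 e3 (hv j)⟩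
    obtain ⟨a1, a2⟩ := hx1 D (h2 _) (h3 _)
    obtain ⟨a3, a4⟩ := hx1 D' (h2' _) (h3' _)
    have h2D : ∀ E : Derivation ℚ ℂ ℂ, E (2 : ℂ) = 0 := fun E => by
      have := E.map_natCast 2
      exact_mod_cast this
    rw [h6, hd D _ _ h7, hd D' _ _ h7, Derivation.leibniz, Derivation.leibniz, map_sub, map_sub,
      map_sub, map_sub, h2D, h2D, a1, a2, a3, a4, b3, b4, b5, b6]
    simp only [smul_eq_mul]
    ring
  unfold tf
  have h6 : ∀ (E E' : Derivation ℚ ℂ ℂ), E (E' (U s) / U s - ∑ j, sT (Λ (ty j)) (Q s j) (v j) *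
      om (Λ (ty j)) E' (v j)) = (E (E' (U s)) * U s - E' (U s) * E (U s)) / U s ^ 2 -
      ∑ j, (sT (Λ (ty j)) (Q s j) (v j) * E (om (Λ (ty j)) E' (v j)) +
        E (sT (Λ (ty j)) (Q s j) (v j)) * om (Λ (ty j)) E' (v j)) := by
    intro E E'
    rw [map_sub, map_sum, hd E _ _ (hU s)]
    congr 1
    refine sum_congr rfl fun j _ => ?_
    rw [Derivation.leibniz, smul_eq_mul, smul_eq_mul]
    ring
  have h7 : ∑ j, sT (Λ (ty j)) (Q s j) (v j) * om (Λ (ty j)) ⁅D, D'⁆ (v j) =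
      ∑ j, (sT (Λ (ty j)) (Q s j) (v j) * D (om (Λ (ty j)) D' (v j)) +
        D (sT (Λ (ty j)) (Q s j) (v j)) * om (Λ (ty j)) D' (v j)) -
      ∑ j, (sT (Λ (ty j)) (Q s j) (v j) * D' (om (Λ (ty j)) D (v j)) +
        D' (sT (Λ (ty j)) (Q s j) (v j)) * om (Λ (ty j)) D (v j)) := by
    rw [← sum_sub_distrib]
    refine sum_congr rfl fun j _ => ?_
    rw [om_br (h2 _) (h3 _) (h2' _) (h3' _), hs j]
    ring
  rw [h6, h6, h7, Derivation.commutator_apply]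
  have h8 := hU s
  field_simp
  ring

end Pool.Agent.K1H83.NS
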