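import Mathlib
import Pool.Agent.K1H83.NS.StepG
import Pool.Agent.K1H83.BD.Seq2

/-!
# Dependent points of extensions of elliptic curves by tori
-/

set_option autoImplicit false

open Filter Finset Module
open scoped PeriodPair ComplexConjugate

noncomputable section

namespace Pool.Agent.K1H83.NS

open H667R3 Pool.Agent.W245.EB
open Pool.Agent.W252
open Pool.Agent.TH813.Core Pool.Agent.TH813.Ell Pool.Agent.TH813.Core2 Pool.Agent.TH813.G
open Pool.Agent.K1H83.BD

variable {K N : IntermediateField ℚ ℂ}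

/-- **Step 1** for extensions by tori -/
theorem step1G (hNX : S_NX) (hKc : Clo K) (hKN : K ≤ N) (u : Up N)
    {e : ℕ} (t : Fin e → ℂ) (d : Fin e → Derivation ℚ ℂ ℂ) (hdK : ∀ l, ∀ x ∈ K, d l x = 0)
    (hdN : ∀ l, ∀ x ∈ N, d l x ∈ N)
    (hexp : ∀ D : Derivation ℚ ℂ ℂ, (∀ x ∈ K, D x = 0) → ∀ z ∈ N, D z = ∑ l, D (t l) * d l z)
    {q : ℕ} {Λ : Fin q → PeriodPair} (h2 : ∀ c, (Λ c).g₂ ∈ K) (h3 : ∀ c, (Λ c).g₃ ∈ K)
    (hni : ∀ c c', c ≠ c' → NoHom (Λ c) (Λ c'))
    {m n l : ℕ} (ty : Fin n → Fin q) (w : Fin m → ℂ) (v z : Fin n → ℂ)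
    (hv : ∀ j, ℘'[Λ (ty j)] (v j) ≠ 0)
    (Q : Fin l → Fin n → ℂ) (hQ : ∀ s j, Q s j ∈ (Λ (ty j)).lattice ∨ ℘[Λ (ty j)] (Q s j) ∈ K)
    (hA : Anti Λ ty Q) (U : Fin l → ℂ) (hU : ∀ s, U s ≠ 0)
    (hlift : ∀ κ l D, u.IsLift (d l) D → fs Λ ty w v z κ D ∈ u.mb K)
    (hliftU : ∀ s l D, u.IsLift (d l) D → tf Λ ty v Q U s D ∈ u.mb K)
    (hrg : ∀ κ, xs Λ ty w v z κ ∈ u.rg) (hrgU : ∀ s, U s ∈ u.rg)
    (hdep : ¬ AlgebraicIndependent (u.mb K) (Sum.elim (xs Λ ty w v z) U)) :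
    (∃ a : Fin m → ℚ, a ≠ 0 ∧ ∀ D : Derivation ℚ ℂ ℂ, (∀ x ∈ u.mb K, D x = 0) →
      ∑ i, (a i : ℂ) * dlog D (w i) = 0) ∨
    ∃ (c₀ : Fin q) (a : Fin n → ℂ), (∀ j, a j ∈ kL (Λ c₀)) ∧ (∀ j, ty j ≠ c₀ → a j = 0) ∧ a ≠ 0 ∧
      ∀ D : Derivation ℚ ℂ ℂ, (∀ x ∈ u.mb K, D x = 0) → ∑ j, a j * om (Λ (ty j)) D (v j) = 0 := by
  classical
  by_cases hind : AlgebraicIndependent (u.mb K) (xs Λ ty w v z)
  swap
  · exact step1c hKc hKN u t d hdK hdN hexp h2 h3 hni ty w v z hv hlift hrg hind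
  exfalso
  have hUm : ∀ x ∈ u.ult K, x ∈ u.mb K := fun x hx => subset_cl _ (Or.inl hx)
  have hNm : ∀ x ∈ N, x ∈ u.mb K := fun x hx => subset_cl _ (Or.inr hx)
  have hKm : ∀ x ∈ K, x ∈ u.mb K := fun x hx => hNm x (hKN hx)
  have hmr : u.mb K ≤ u.rg := cl_le u.rg_closed (by
    rintro x (hx | hx)
    · exact u.ult_le_rg K hx
    · exact u.le_ult le_rfl hx)
  have hvl : ∀ j, v j ∉ (Λ (ty j)).lattice := fun j => two_mul_notMem (hv j)
  have hQ' : ∀ s j, Q s j ∉ (Λ (ty j)).lattice → ℘'[Λ (ty j)] (Q s j) ∈ K := by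
    intro s j hql
    refine mem_of_killed hKc fun D hD => ?_
    refine (wp_killed (hD _ (h2 _)) (hD _ (h3 _)) ?_ hql).2
    unfold om
    rw [hD _ ((hQ s j).resolve_left hql), zero_div]
  -- the points are not over `K`
  have hnot : ∀ j, ℘[Λ (ty j)] (v j) ∉ u.mb K := by
    intro j hj
    have h4 := notMem_others hind (Sum.inr (Sum.inl j))
    exact h4 (subset_cl _ (Or.inl hj))
  have hpm : ∀ s j, Q s j ∉ (Λ (ty j)).lattice → v j + Q s j ∉ (Λ (ty j)).lattice ∧
      v j - Q s j ∉ (Λ (ty j)).lattice := by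
    intro s j hql
    have h8 : ¬ ℘[Λ (ty j)] (v j) = ℘[Λ (ty j)] (Q s j) := fun h9 => hnot j (by
      rw [h9]
      exact hKm _ ((hQ s j).resolve_left hql))
    rw [wp_eq_iff _ (hvl j) hql] at h8
    tauto
  -- the forms
  let F : (Fin m ⊕ (Fin n ⊕ Fin n)) ⊕ Fin l → Derivation ℚ ℂ ℂ → ℂ :=
    Sum.elim (fun κ => fs Λ ty w v z κ) (fun s => tf Λ ty v Q U s)
  obtain ⟨r₀, hr₀, hr₀'⟩ := exists_rel (u.mb K) F
    (by
      rintro ((i | j | j) | s) D D'
      · exact dlog_add_der D D' _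
      · exact om_add_der D D' _
      · change (D + D') (z j) + _ * om _ (D + D') _ = (D (z j) + _) + (D' (z j) + _)
        rw [om_add_der, Derivation.add_apply]
        ring
      · change (D + D') (U s) / U s - ∑ j, _ * om _ (D + D') _ =
          (D (U s) / U s - ∑ j, _ * om _ D _) + (D' (U s) / U s - ∑ j, _ * om _ D' _)
        have h4 : ∀ j, sT (Λ (ty j)) (Q s j) (v j) * om (Λ (ty j)) (D + D') (v j) =
            sT (Λ (ty j)) (Q s j) (v j) * om (Λ (ty j)) D (v j) +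
              sT (Λ (ty j)) (Q s j) (v j) * om (Λ (ty j)) D' (v j) := fun j => by
          rw [om_add_der, mul_add]
        rw [sum_congr rfl (fun j _ => h4 j), sum_add_distrib, Derivation.add_apply]
        ring)
    (by
      rintro ((i | j | j) | s) c D
      · exact dlog_smul_der c D _
      · exact om_smul_der c D _
      · change (c • D) (z j) + _ * om _ (c • D) _ = c * (D (z j) + _)
        rw [om_smul_der, Derivation.smul_apply, smul_eq_mul]
        ring
      · change (c • D) (U s) / U s - ∑ j, _ * om _ (c • D) _ =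
          c * (D (U s) / U s - ∑ j, _ * om _ D _)
        have h4 : ∀ j, sT (Λ (ty j)) (Q s j) (v j) * om (Λ (ty j)) (c • D) (v j) =
            c * (sT (Λ (ty j)) (Q s j) (v j) * om (Λ (ty j)) D (v j)) := fun j => by
          rw [om_smul_der]
          ring
        rw [sum_congr rfl (fun j _ => h4 j), ← mul_sum, Derivation.smul_apply, smul_eq_mul]
        ring)
    (Sum.elim (xs Λ ty w v z) U) hdep
    (by
      intro val
      let y₀ : Fin m ⊕ (Fin n ⊕ Fin n) → ℂ :=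
        Sum.elim (fun i => val (Sum.inl (Sum.inl i)) / Complex.exp (w i))
        (Sum.elim (fun j => val (Sum.inl (Sum.inr (Sum.inl j))) / ℘'[Λ (ty j)] (v j))
          (fun j => val (Sum.inl (Sum.inr (Sum.inr j))) +
            ℘[Λ (ty j)] (v j) * (val (Sum.inl (Sum.inr (Sum.inl j))) / ℘'[Λ (ty j)] (v j))))
      refine ⟨Sum.elim y₀ (fun s => val (Sum.inr s) / U s - ∑ j, sT (Λ (ty j)) (Q s j) (v j) *
        (val (Sum.inl (Sum.inr (Sum.inl j))) / ℘'[Λ (ty j)] (v j))), fun D hD => ?_⟩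
      have hom : ∀ j, om (Λ (ty j)) D (v j) =
          val (Sum.inl (Sum.inr (Sum.inl j))) / ℘'[Λ (ty j)] (v j) := fun j =>
        hD (Sum.inl (Sum.inr (Sum.inl j)))
      rintro ((i | j | j) | s)
      · have h1 : D (Complex.exp (w i)) / Complex.exp (w i) =
            val (Sum.inl (Sum.inl i)) / Complex.exp (w i) := hD (Sum.inl (Sum.inl i))
        exact (div_left_inj' (Complex.exp_ne_zero _)).1 h1
      · have h1 : D (℘[Λ (ty j)] (v j)) / ℘'[Λ (ty j)] (v j) =
            val (Sum.inl (Sum.inr (Sum.inl j))) / ℘'[Λ (ty j)] (v j) := hom j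
        exact (div_left_inj' (hv j)).1 h1
      · have h4 : D (z j) + ℘[Λ (ty j)] (v j) * om (Λ (ty j)) D (v j) =
            val (Sum.inl (Sum.inr (Sum.inr j))) +
            ℘[Λ (ty j)] (v j) * (val (Sum.inl (Sum.inr (Sum.inl j))) / ℘'[Λ (ty j)] (v j)) :=
          hD (Sum.inl (Sum.inr (Sum.inr j)))
        rw [hom j] at h4
        exact add_right_cancel h4
      · have h4 : D (U s) / U s - ∑ j, sT (Λ (ty j)) (Q s j) (v j) * om (Λ (ty j)) D (v j) =
            val (Sum.inr s) / U s - ∑ j, sT (Λ (ty j)) (Q s j) (v j) *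
            (val (Sum.inl (Sum.inr (Sum.inl j))) / ℘'[Λ (ty j)] (v j)) := hD (Sum.inr s)
        rw [sum_congr rfl (fun j _ => by rw [hom j])] at h4
        exact (div_left_inj' (hU s)).1 (sub_left_injective h4))
  have hS : (u.mb K : Set ℂ) ⊆ cl ((u.mb K : Set ℂ) ∪ Set.range (Sum.elim (xs Λ ty w v z) U)) :=
    fun x hx => subset_cl _ (Or.inl hx)
  obtain ⟨r, hr, hrm, hrel⟩ := step1 hKc hKN u t d hdK hdN hexp F
    (by
      rintro ((i | j | j) | s) D D' hD hD'
      · exact dlog_br D D' _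
      · exact om_br (hD _ (h2 _)) (hD _ (h3 _)) (hD' _ (h2 _)) (hD' _ (h3 _)) _
      · exact ez_br (hD _ (h2 _)) (hD _ (h3 _)) (hD' _ (h2 _)) (hD' _ (h3 _)) _ _
      · refine tf_br hU (fun c => hD _ (h2 c)) (fun c => hD _ (h3 c)) (fun c => hD' _ (h2 c))
          (fun c => hD' _ (h3 c)) hvl (fun s j => ?_) s
        by_cases hql : Q s j ∈ (Λ (ty j)).lattice
        · exact Or.inl hql
        · have h5 := (hQ s j).resolve_left hql
          exact Or.inr ⟨(hpm s j hql).1, (hpm s j hql).2, hD _ h5, hD _ (hQ' s j hql), hD' _ h5,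
            hD' _ (hQ' s j hql)⟩)
    (by
      rintro (κ | s) l' D hD
      · exact hlift κ l' D hD
      · exact hliftU s l' D hD)
    (cl ((u.mb K : Set ℂ) ∪ Set.range (Sum.elim (xs Λ ty w v z) U))) (cl_closed _) hS
    (cl_le u.rg_closed (by
      rintro x (hx | ⟨κ | s, rfl⟩)
      · exact hmr hx
      · exact hrg κ
      · exact hrgU s))
    (by
      intro κ D hD
      have hx : ∀ κ, D (xs Λ ty w v z κ) = 0 := fun κ =>
        hD _ (subset_cl _ (Or.inr ⟨Sum.inl κ, rfl⟩))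
      have hxU : ∀ s, D (U s) = 0 := fun s => hD _ (subset_cl _ (Or.inr ⟨Sum.inr s, rfl⟩))
      have hom : ∀ j, om (Λ (ty j)) D (v j) = 0 := fun j => by
        have h1 : D (℘[Λ (ty j)] (v j)) = 0 := hx (Sum.inr (Sum.inl j))
        unfold om
        rw [h1, zero_div]
      rcases κ with (i | j | j) | s
      · exact dlog_eq_zero.2 (hx (Sum.inl i))
      · exact hom j
      · have h4 : D (z j) = 0 := hx (Sum.inr (Sum.inr j))
        change D (z j) + ℘[Λ (ty j)] (v j) * om (Λ (ty j)) D (v j) = 0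
        rw [hom j, h4, mul_zero, add_zero]
      · change D (U s) / U s - ∑ j, sT (Λ (ty j)) (Q s j) (v j) * om (Λ (ty j)) D (v j) = 0
        rw [hxU s, zero_div, sum_eq_zero (fun j _ => by rw [hom j, mul_zero]), sub_zero])
    r₀ hr₀ hr₀'
  have hrel' : ∀ D : Derivation ℚ ℂ ℂ, (∀ x ∈ u.mb K, D x = 0) →
      ∑ κ, r (Sum.inl κ) * fs Λ ty w v z κ D + ∑ s, r (Sum.inr s) * tf Λ ty v Q U s D = 0 := by
    intro D hD
    have h1 := hrel D hD
    rw [Fintype.sum_sum_type] at h1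
    exact h1
  -- the coefficients of the forms of the third kind
  have hδ : ∀ s, r (Sum.inr s) = 0 := by
    by_contra hcon
    push Not at hcon
    obtain ⟨s₀, hs₀⟩ := hcon
    obtain ⟨ψ, hψ⟩ : ∃ ψ : ℂ →ₗ[ℚ] ℚ, ψ (r (Sum.inr s₀)) ≠ 0 := by
      by_contra hcon
      push Not at hcon
      exact hs₀ ((Module.forall_dual_apply_eq_zero_iff ℚ _).1 hcon)
    obtain ⟨j₀, hj₀⟩ := hA (fun s => ψ (r (Sum.inr s))) (fun h => hψ (congrFun h s₀))
    set i₀ : Fin m ⊕ (Fin n ⊕ Fin n) := Sum.inr (Sum.inl j₀) with hi₀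
    set K' := cl ((u.mb K : Set ℂ) ∪ {x | ∃ κ, κ ≠ i₀ ∧ x = xs Λ ty w v z κ}) with hK'
    have hmK' : ∀ x ∈ u.mb K, x ∈ K' := fun x hx => subset_cl _ (Or.inl hx)
    have hxK' : ∀ κ, κ ≠ i₀ → xs Λ ty w v z κ ∈ K' := fun κ hκ =>
      subset_cl _ (Or.inr ⟨κ, hκ, rfl⟩)
    have hw₀ : ℘[Λ (ty j₀)] (v j₀) ∉ K' := notMem_others hind i₀
    obtain ⟨n', hn', hn''⟩ := rel_third hNX (K := K') (cl_closed _) (hmK' _ (hKm _ (h2 (ty j₀))))
      (hmK' _ (hKm _ (h3 (ty j₀)))) (hvl j₀) hw₀ (fun s => r (Sum.inr s)) U (fun s => Q s j₀)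
      (fun s => hmK' _ (hrm _)) hU
      (fun s => (hQ s j₀).imp id fun h => hmK' _ (hKm _ h))
      (r (Sum.inl (Sum.inr (Sum.inl j₀)))) (r (Sum.inl (Sum.inr (Sum.inr j₀))))
      (hmK' _ (hrm _)) (hmK' _ (hrm _)) (by
        intro D hD
        have hDm : ∀ x ∈ u.mb K, D x = 0 := fun x hx => hD x (hmK' x hx)
        have h1 := hrel' D hDm
        have hx : ∀ κ, κ ≠ i₀ → D (xs Λ ty w v z κ) = 0 := fun κ hκ => hD _ (hxK' κ hκ)
        have hom : ∀ j, j ≠ j₀ → om (Λ (ty j)) D (v j) = 0 := fun j hj => by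
          have h1 : D (℘[Λ (ty j)] (v j)) = 0 := hx (Sum.inr (Sum.inl j)) (by
            intro h
            exact hj (Sum.inl.inj (Sum.inr.inj h)))
          unfold om
          rw [h1, zero_div]
        have e1 : ∑ κ, r (Sum.inl κ) * fs Λ ty w v z κ D =
            (r (Sum.inl (Sum.inr (Sum.inl j₀))) + r (Sum.inl (Sum.inr (Sum.inr j₀))) *
              ℘[Λ (ty j₀)] (v j₀)) * om (Λ (ty j₀)) D (v j₀) := by
          rw [Fintype.sum_sum_type, Fintype.sum_sum_type]
          have e2 : ∀ i, r (Sum.inl (Sum.inl i)) * fs Λ ty w v z (Sum.inl i) D = 0 := by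
            intro i
            have h4 : fs Λ ty w v z (Sum.inl i) D = 0 :=
              dlog_eq_zero.2 (hx (Sum.inl i) (by simp [hi₀]))
            rw [h4, mul_zero]
          have e3 : ∀ j, j ≠ j₀ → r (Sum.inl (Sum.inr (Sum.inl j))) *
              fs Λ ty w v z (Sum.inr (Sum.inl j)) D = 0 := by
            intro j hj
            have h4 : fs Λ ty w v z (Sum.inr (Sum.inl j)) D = 0 := hom j hj
            rw [h4, mul_zero]
          have hzj : ∀ j, D (z j) = 0 := fun j => hx (Sum.inr (Sum.inr j)) (by simp [hi₀])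
          have e4 : ∀ j, j ≠ j₀ → r (Sum.inl (Sum.inr (Sum.inr j))) *
              fs Λ ty w v z (Sum.inr (Sum.inr j)) D = 0 := by
            intro j hj
            have h4 : fs Λ ty w v z (Sum.inr (Sum.inr j)) D = 0 := by
              change D (z j) + ℘[Λ (ty j)] (v j) * om (Λ (ty j)) D (v j) = 0
              rw [hzj j, hom j hj, mul_zero, add_zero]
            rw [h4, mul_zero]
          rw [sum_eq_zero (fun i _ => e2 i), Finset.sum_eq_single j₀ (fun j _ hj => e3 j hj)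
            (fun h => absurd (mem_univ _) h), Finset.sum_eq_single j₀ (fun j _ hj => e4 j hj)
            (fun h => absurd (mem_univ _) h)]
          have e5 : fs Λ ty w v z (Sum.inr (Sum.inl j₀)) D = om (Λ (ty j₀)) D (v j₀) := rfl
          have e6 : fs Λ ty w v z (Sum.inr (Sum.inr j₀)) D =
              D (z j₀) + ℘[Λ (ty j₀)] (v j₀) * om (Λ (ty j₀)) D (v j₀) := rfl
          rw [e5, e6, hzj j₀]
          ring
        have e7 : ∀ s, tf Λ ty v Q U s D =
            D (U s) / U s - sT (Λ (ty j₀)) (Q s j₀) (v j₀) * om (Λ (ty j₀)) D (v j₀) := by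
          intro s
          unfold tf
          rw [Finset.sum_eq_single j₀ (fun j _ hj => by rw [hom j hj, mul_zero])
            (fun h => absurd (mem_univ _) h)]
        rw [e1, sum_congr rfl (fun s _ => by rw [e7 s])] at h1
        rw [add_comm]
        exact h1) ψ
    exact hj₀ n' hn' hn''
  -- the other coefficients
  refine hr (funext fun κ => ?_)
  rcases κ with κ | s
  · obtain ⟨D, hD, hDy⟩ := exists_vals ty w v z hv hind (Pi.single κ 1)
    have h1 := hrel' D hD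
    rw [sum_congr rfl (fun κ' _ => by rw [hDy κ']),
      sum_eq_zero (s := univ) (f := fun s => r (Sum.inr s) * tf Λ ty v Q U s D)
        (fun s _ => by rw [hδ s, zero_mul]), add_zero,
      Finset.sum_eq_single κ (fun κ' _ hκ' => by rw [Pi.single_eq_of_ne hκ', mul_zero])
        (fun h => absurd (mem_univ _) h), Pi.single_eq_same, mul_one] at h1
    exact h1
  · exact hδ s

end Pool.Agent.K1H83.NS
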