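import Mathlib
import Pool.Agent.K1H83.NS.Stm
import Pool.Agent.K1H83.NS.Third
import Pool.Agent.K1H83.BD.Seq2

/-!
# Values of Serre's function on rational combinations
-/

set_option autoImplicit false

open Filter Finset Module
open scoped PeriodPair

noncomputable section

namespace Pool.Agent.K1H83.NS

open H667R3 Pool.Agent.W245.EB
open Pool.Agent.W252
open Pool.Agent.TH813.Core Pool.Agent.TH813.Ell Pool.Agent.TH813.Core2 Pool.Agent.TH813.G
open Pool.Agent.K1H83.BD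

/-- the exceptional points of Serre's function -/
def sC (L : PeriodPair) (q : ℂ) : Set ℂ :=
  {z | z ∈ L.lattice ∨ z + q ∈ L.lattice ∨ z + 2 * q ∈ L.lattice ∨ z - q ∈ L.lattice}

theorem sB_sub (L : PeriodPair) (q : ℂ) : sB L q ⊆ sC L q := by
  rintro z (h | h | h)
  · exact Or.inl h
  · exact Or.inr (Or.inl h)
  · exact Or.inr (Or.inr (Or.inl h))

theorem lat_countable (L : PeriodPair) (c : ℂ) : {z : ℂ | z + c ∈ L.lattice}.Countable := by
  have : Countable L.lattice := L.latticeEquivProd.toEquiv.injective.countable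
  have h1 : (Set.range fun l : L.lattice => (l : ℂ) - c).Countable := Set.countable_range _
  refine h1.mono ?_
  intro z hz
  exact ⟨⟨z + c, hz⟩, by simp⟩

theorem sC_countable (L : PeriodPair) (q : ℂ) : (sC L q).Countable := by
  have h0 := lat_countable L 0
  have h1 := lat_countable L q
  have h2 := lat_countable L (2 * q)
  have h3 := lat_countable L (-q)
  refine (h0.union (h1.union (h2.union h3))).mono ?_
  rintro z (h | h | h | h)
  · exact Or.inl (by simpa using h)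
  · exact Or.inr (Or.inl h)
  · exact Or.inr (Or.inr (Or.inl h))
  · exact Or.inr (Or.inr (Or.inr (by simpa [sub_eq_add_neg] using h)))

/-- a generic point -/
theorem exists_gen {I : Type} [Finite I] (L : I → PeriodPair) (q : I → ℂ) {r : ℕ} (b : Fin r → ℂ) :
    ∃ x : ℂ, ∀ i, x ∉ sC (L i) (q i) ∧ ∀ l, x + b l ∉ sC (L i) (q i) := by
  classical
  set B : Set ℂ := ⋃ i, (sC (L i) (q i) ∪ ⋃ l, (fun x : ℂ => x + b l) ⁻¹' sC (L i) (q i)) with hB
  have hBc : B.Countable := by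
    refine Set.countable_iUnion fun i => (sC_countable _ _).union ?_
    exact Set.countable_iUnion fun l =>
      (sC_countable _ _).preimage_of_injOn (fun x _ y _ h => add_right_cancel h)
  have hne : ∃ c : ℂ, c ∉ B := by
    by_contra hcon
    push Not at hcon
    have : (Set.univ : Set ℂ).Countable := hBc.mono fun c _ => hcon c
    exact not_countable_complex this
  obtain ⟨x, hx⟩ := hne
  refine ⟨x, fun i => ⟨fun h => hx ?_, fun l h => hx ?_⟩⟩
  · exact Set.mem_iUnion.2 ⟨i, Or.inl h⟩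
  · exact Set.mem_iUnion.2 ⟨i, Or.inr (Set.mem_iUnion.2 ⟨l, h⟩)⟩

/-- the form of the third kind is linear -/
theorem sL_lin (hADD : S_ADD) (hDLOG : S_DLOG) {L : PeriodPair} {D : Derivation ℚ ℂ ℂ}
    (h2 : D L.g₂ = 0) (h3 : D L.g₃ = 0) {q : ℂ}
    (hq : q ∈ L.lattice ∨ (D (℘[L] q) = 0 ∧ D (℘'[L] q) = 0)) {r : ℕ} (b : Fin r → ℂ) {x : ℂ}
    (hx : x ∉ sC L q) (hxb : ∀ l, x + b l ∉ sC L q) (c : Fin r → ℚ) (hc : cb b c ∉ sC L q) :
    sL L q D (cb b c) = ∑ l, (c l : ℂ) * (sL L q D (x + b l) - sL L q D x) := by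
  have hsB : ∀ z, z ∉ sC L q → z ∉ sB L q := fun z hz h => hz (sB_sub L q h)
  obtain ⟨T, hT, hTe⟩ := hADD (sB L q) ((sC_countable L q).mono (sB_sub L q)) (sL L q D)
    (hDLOG L D h2 h3 q hq)
  rw [← hTe _ (hsB _ hc)]
  let f : ℂ →+ ℂ := AddMonoidHom.mk' T hT
  have hf : ∀ z, T z = f z := fun z => rfl
  rw [hf]
  unfold cb
  rw [map_sum]
  refine sum_congr rfl fun l _ => ?_
  have h1 : (c l : ℂ) * b l = (c l : ℚ) • b l := by rw [Rat.smul_def]
  rw [h1, map_rat_smul f (c l) (b l), Rat.smul_def, ← hTe _ (hsB _ (hxb l)), ← hTe _ (hsB _ hx), hT]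
  rw [← hf]
  ring

theorem sF_ne_zero {L : PeriodPair} {q z : ℂ} (hz : z ∉ sC L q) : sF L q z ≠ 0 := by
  unfold sF
  by_cases hq : q ∈ L.lattice
  · rw [if_pos hq]
    exact one_ne_zero
  · rw [if_neg hq]
    exact serreF_ne_zero L (fun h => hz (Or.inl h)) hq (fun h => hz (Or.inr (Or.inl h)))

variable {N : IntermediateField ℚ ℂ}

theorem sT_mem {L : PeriodPair} {q z : ℂ} (hq : q ∈ L.lattice ∨ (℘[L] q ∈ N ∧ ℘'[L] q ∈ N))
    (hz : z ∉ sC L q) (hx : ℘[L] z ∈ N) (hy : ℘'[L] z ∈ N) : sT L q z ∈ N := by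
  by_cases hql : q ∈ L.lattice
  · unfold sT
    rw [if_pos hql]
    exact zero_mem _
  · obtain ⟨b1, b2⟩ := hq.resolve_left hql
    have hzl : z ∉ L.lattice := fun h => hz (Or.inl h)
    have c1 : z + q ∉ L.lattice := fun h => hz (Or.inr (Or.inl h))
    have c2 : z - q ∉ L.lattice := fun h => hz (Or.inr (Or.inr (Or.inr h)))
    have h4 := sT_eq hql hzl c1 c2
    have h5 : ℘[L] z - ℘[L] q ≠ 0 := by
      rw [sub_ne_zero, Ne, wp_eq_iff L hzl hql]
      tauto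
    have h6 : sT L q z = (℘'[L] z - ℘'[L] q) / (2 * (℘[L] z - ℘[L] q)) := by
      rw [← h4, mul_div_cancel_right₀ _ (mul_ne_zero two_ne_zero h5)]
    rw [h6]
    exact div_mem (sub_mem hy b2) (mul_mem (ofNat_mem N 2) (sub_mem hx b1))

theorem wp'_mem (hN : Clo N) {L : PeriodPair} (h2 : L.g₂ ∈ N) (h3 : L.g₃ ∈ N) {z : ℂ}
    (hz : z ∉ L.lattice) (hx : ℘[L] z ∈ N) : ℘'[L] z ∈ N :=
  mem_of_killed hN fun D hD => (wp_killed (hD _ h2) (hD _ h3) (om_kill (hD _ hx)) hz).2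

theorem sL_memN (hN : Clo N) {L : PeriodPair} (h2 : L.g₂ ∈ N) (h3 : L.g₃ ∈ N) {q z : ℂ}
    (hq : q ∈ L.lattice ∨ ℘[L] q ∈ N) (hz : z ∉ sC L q) (hx : ℘[L] z ∈ N) (hF : sF L q z ∈ N)
    {d : Derivation ℚ ℂ ℂ} (hd : ∀ x ∈ N, d x ∈ N) : sL L q d z ∈ N := by
  have hzl : z ∉ L.lattice := fun h => hz (Or.inl h)
  unfold sL
  refine sub_mem (div_mem (hd _ hF) hF) (mul_mem (sT_mem ?_ hz hx (wp'_mem hN h2 h3 hzl hx))
    (om_memN hN hd h2 h3 hx))
  by_cases hql : q ∈ L.lattice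
  · exact Or.inl hql
  · have h4 := hq.resolve_left hql
    exact Or.inr ⟨h4, wp'_mem hN h2 h3 hql h4⟩

theorem sF_mem (hADD : S_ADD) (hDLOG : S_DLOG) (hN : Clo N) {L : PeriodPair} (h2 : L.g₂ ∈ N)
    (h3 : L.g₃ ∈ N) {q : ℂ} (hq : q ∈ L.lattice ∨ ℘[L] q ∈ N) {r : ℕ} {b : Fin r → ℂ}
    (hb : ∀ l, ℘[L] (b l) ∈ N) {x : ℂ} (hx : x ∉ sC L q) (hxb : ∀ l, x + b l ∉ sC L q)
    (hpx : ℘[L] x ∈ N) (hpb : ∀ l, ℘[L] (x + b l) ∈ N) (hFx : sF L q x ∈ N)
    (hFb : ∀ l, sF L q (x + b l) ∈ N) (c : Fin r → ℚ) (hc : cb b c ∉ sC L q) :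
    sF L q (cb b c) ∈ N := by
  refine mem_of_killed hN fun D hD => ?_
  have hq' : q ∈ L.lattice ∨ (D (℘[L] q) = 0 ∧ D (℘'[L] q) = 0) := by
    by_cases hql : q ∈ L.lattice
    · exact Or.inl hql
    · have h4 := hq.resolve_left hql
      exact Or.inr ⟨hD _ h4, hD _ (wp'_mem hN h2 h3 hql h4)⟩
  have h1 := sL_lin hADD hDLOG (hD _ h2) (hD _ h3) hq' b hx hxb c hc
  have h4 : ∀ z, ℘[L] z ∈ N → sF L q z ∈ N → sL L q D z = 0 := by
    intro z hz hzF
    unfold sL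
    rw [hD _ hzF, om_kill (hD _ hz)]
    ring
  have h5 : ∀ l, (c l : ℂ) * (sL L q D (x + b l) - sL L q D x) = 0 := fun l => by
    rw [h4 _ (hpb l) (hFb l), h4 _ hpx hFx]
    ring
  rw [sum_eq_zero (fun l _ => h5 l)] at h1
  unfold sL at h1
  have h6 : om L D (cb b c) = 0 := om_comb_zero hD h2 h3 hb c
  rw [h6, mul_zero, sub_zero, div_eq_zero_iff] at h1
  rcases h1 with h1 | h1
  · exact h1
  · rw [h1, map_zero]

end Pool.Agent.K1H83.NS
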