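import Mathlib
import Pool.Agent.K1H83.NS.Main
import Pool.Agent.K1H83.BD.Free

/-!
# Relations over the field generated by the arguments, for extensions by tori
-/

set_option autoImplicit false

open Filter Finset Module
open scoped PeriodPair

noncomputable section

namespace Pool.Agent.K1H83.NS

open H667R3 Pool.Agent.W245.EB
open Pool.Agent.W252
open Pool.Agent.TH813.Core Pool.Agent.TH813.Ell Pool.Agent.TH813.Core2 Pool.Agent.TH813.G
open Pool.Agent.K1H83.BD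

/-- **The theorem for relations over the field generated by the arguments and by constants.** -/
theorem main_freeG (hNX : S_NX) (hADD : S_ADD) (hDLOG : S_DLOG) (K : IntermediateField ℚ ℂ) {q : ℕ}
    (Λ : Fin q → PeriodPair)
    (h2 : ∀ c, IsAlgebraic K (Λ c).g₂) (h3 : ∀ c, IsAlgebraic K (Λ c).g₃)
    (hni : ∀ c c', c ≠ c' → NoHom (Λ c) (Λ c')) (V : Submodule ℚ ℂ) [FiniteDimensional ℚ V]
    {I : Type} [Finite I] (w : I → ℂ) (δ : ℕ) {m n l' : ℕ} (ty : Fin n → Fin q)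
    (Q : Fin l' → Fin n → ℂ)
    (hQ : ∀ s j, Q s j ∈ (Λ (ty j)).lattice ∨ IsAlgebraic K (℘[Λ (ty j)] (Q s j)))
    (hA : Anti Λ ty Q) :
    ∃ (S : Finset ((Fin m → ℚ) × (Fin m → ℂ)))
      (S' : Fin q → Finset ((Fin n → ℂ) × (Fin n → ℂ))),
      (∀ s ∈ S, s.1 ≠ 0 ∧ ∀ i, s.2 i ∈ V) ∧
      (∀ c, ∀ s ∈ S' c, s.1 ≠ 0 ∧ (∀ j, s.1 j ∈ kL (Λ c)) ∧ (∀ j, ty j ≠ c → s.1 j = 0) ∧
        ∀ j, s.2 j ∈ V) ∧
      ∀ (p : Fin m → ℂ) (v : Fin n → ℂ) (tt : Fin l' → ℂ), (∀ i, p i ∈ V) → (∀ j, v j ∈ V) →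
        (∀ i, tt i ∈ V) → (∀ j, v j ∉ (Λ (ty j)).lattice) →
        (∃ s ∈ S, LgM K (∑ i, (s.1 i : ℂ) * (p i - s.2 i))) ∨
        (∃ c, ∃ s ∈ S' c, LgE (Λ c) K (∑ j, s.1 j * (v j - s.2 j))) ∨
        ∀ P : MvPolynomial ((I ⊕ ((Fin m ⊕ Fin n) ⊕ Fin l')) ⊕
            ((Fin m ⊕ (Fin n ⊕ Fin n)) ⊕ Fin l')) ℂ,
          P.totalDegree ≤ δ → (∀ μ, IsAlgebraic K (P.coeff μ)) →
          MvPolynomial.eval (Sum.elim (Sum.elim w (Sum.elim (Sum.elim p v) tt))
            (valsG Λ ty Q p v tt)) P = 0 →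
          ∀ y, MvPolynomial.eval (Sum.elim (Sum.elim w (Sum.elim (Sum.elim p v) tt)) y) P = 0 := by
  classical
  -- the algebraic closure
  set K' := cl (K : Set ℂ) with hK'
  have hKK' : ∀ x, IsAlgebraic K x → x ∈ K' := fun x hx => cl_closed _ x
    (alg_of_subset _ (fun r => subset_cl _ r.2) (algebraMap K ℂ).injective hx)
  have hK'K : ∀ x, IsAlgebraic K' x → IsAlgebraic K x := fun x hx =>
    alg_of_cl (K := K) (S := (K : Set ℂ)) (fun y hy => isAlgebraic_algebraMap (⟨y, hy⟩ : K))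
      (cl_closed _ x hx)
  let V₁ : Submodule K' ℂ := Submodule.span K' ((V : Set ℂ) ∪ ({1} ∪ Set.range w))
  have h1 : (1 : ℂ) ∈ V₁ := Submodule.subset_span (Or.inr (Or.inl rfl))
  have hfg : V₁.FG := by
    have h4 : V₁ = Submodule.span K' (Set.range (fun j => (finBasis ℚ V j : ℂ)) ∪
        ({1} ∪ Set.range w)) := by
      refine le_antisymm (Submodule.span_le.2 ?_) (Submodule.span_le.2 ?_)
      · rintro x (hx | hx)
        · have h5 := congrArg (fun t : V => (t : ℂ)) ((finBasis ℚ V).sum_repr ⟨x, hx⟩)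
          simp only [Submodule.coe_sum, Submodule.coe_smul] at h5
          rw [← h5]
          refine sum_mem fun j _ => ?_
          rw [Rat.smul_def]
          have h6 : (((finBasis ℚ V).repr ⟨x, hx⟩ j : ℚ) : ℂ) * (finBasis ℚ V j : ℂ) =
              (((finBasis ℚ V).repr ⟨x, hx⟩ j : ℚ) : K') • (finBasis ℚ V j : ℂ) := by
            rw [Algebra.smul_def]
            congr 1
          rw [h6]
          exact Submodule.smul_mem _ _ (Submodule.subset_span (Or.inl ⟨j, rfl⟩))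
        · exact Submodule.subset_span (Or.inr hx)
      · rintro x (⟨j, rfl⟩ | hx)
        · exact Submodule.subset_span (Or.inl (finBasis ℚ V j).2)
        · exact Submodule.subset_span (Or.inr hx)
    rw [h4]
    exact Submodule.fg_span ((Set.finite_range _).union ((Set.finite_singleton _).union
      (Set.finite_range _)))
  have hfd : FiniteDimensional K' (V₁ ^ δ : Submodule K' ℂ) :=
    Module.Finite.iff_fg.2 (hfg.pow δ)
  obtain ⟨S, S', hS, hS', hm⟩ := mainG hNX hADD hDLOG K' Λ (fun c => isAlgebraic_algebraMap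
      (⟨_, hKK' _ (h2 c)⟩ : K')) (fun c => isAlgebraic_algebraMap (⟨_, hKK' _ (h3 c)⟩ : K'))
    hni V (V₁ ^ δ) δ ty Q (fun i j => (hQ i j).imp id fun h => isAlgebraic_algebraMap
      (⟨_, hKK' _ h⟩ : K')) hA (m := m)
  refine ⟨S, S', hS, hS', fun p v tt hp hv htt hl => ?_⟩
  by_cases hrel : Rel ((V₁ ^ δ : Submodule K' ℂ) : Set ℂ) δ (valsG Λ ty Q p v tt)
  · rcases hm p v tt hp hv htt hl hrel with ⟨s, hs, h⟩ | ⟨c, s, hs, h⟩
    · exact Or.inl ⟨s, hs, hK'K _ h⟩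
    · refine Or.inr (Or.inl ⟨c, s, hs, ?_⟩)
      rcases h with h | h
      · exact Or.inl h
      · exact Or.inr (hK'K _ h)
  · refine Or.inr (Or.inr fun P hP hPK h0 y => ?_)
    have hcV : ∀ i, (Sum.elim w (Sum.elim (Sum.elim p v) tt) :
        I ⊕ ((Fin m ⊕ Fin n) ⊕ Fin l') → ℂ) i ∈ V₁ := by
      rintro (i | (i | i) | i)
      · exact Submodule.subset_span (Or.inr (Or.inr ⟨i, rfl⟩))
      · exact Submodule.subset_span (Or.inl (hp i))
      · exact Submodule.subset_span (Or.inl (hv i))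
      · exact Submodule.subset_span (Or.inl (htt i))
    have h4 := bd_ev h1 (Sum.elim w (Sum.elim (Sum.elim p v) tt)) hcV P hP
      (fun μ => hKK' _ (hPK μ))
    have h5 : ev (Sum.elim w (Sum.elim (Sum.elim p v) tt)) P = 0 := by
      by_contra hne
      refine hrel ⟨_, hne, h4.1, h4.2, ?_⟩
      rw [eval_ev]
      exact h0
    rw [← eval_ev, h5, map_zero]

end Pool.Agent.K1H83.NS
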